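import Pool.Agent.Work.MP_5f020a_co.Main

/-!
The example graph is connected.
-/

namespace Pool.Agent.Work.MP_5f020a_co

lemma HH_connected : HH.Connected := by
  have h : ∀ a : Fin 18, HH.Adj a 9 ∨ HH.Adj a 0 := by decide
  have h0 : HH.Adj 0 9 := by decide
  have h1 : ∀ a : Fin 18, HH.Reachable a 9 := fun a =>
    (h a).elim (fun h => h.reachable) fun h => h.reachable.trans h0.reachable
  exact ⟨fun a b => (h1 a).trans (h1 b).symm⟩

end Pool.Agent.Work.MP_5f020a_co
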