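import Mathlib

/-!
Definitions for problem MP_5f020a_co (rainbow entropy-Turan density), copied from the problem file.
-/

namespace Pool.Agent.Work.MP_5f020a_co

/-- An `l`-palette template on `K_n`: every edge of the complete graph on `Fin n` receives a
nonempty set of colours from `Fin l`. -/
structure Template (n l : ℕ) where
  /-- the palette of an edge -/
  pal : (⊤ : SimpleGraph (Fin n)).edgeSet → Finset (Fin l)
  /-- palettes are nonempty -/
  pal_nonempty : ∀ e, (pal e).Nonempty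

/-- The template is `H`-SDR-free: for every subgraph `K` of `K_n` isomorphic to `H`, there is no
choice of pairwise distinct colours, one from the palette of each edge of `K`. -/
def SDRFree {V : Type} (H : SimpleGraph V) {n l : ℕ} (P : Template n l) : Prop :=
  ∀ K : (⊤ : SimpleGraph (Fin n)).Subgraph, Nonempty (K.coe ≃g H) →
    ¬ ∃ c : K.edgeSet → Fin l, Function.Injective c ∧
      ∀ e : K.edgeSet, c e ∈ P.pal ⟨e.1, K.edgeSet_subset e.2⟩

/-- `ex_log(n; H, l)`: the largest value of `∑ e, log |P e|` over the `H`-SDR-free `l`-palette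
templates `P` on `K_n` (a supremum over a finite set). -/
noncomputable def exLog {V : Type} (n : ℕ) (H : SimpleGraph V) (l : ℕ) : ℝ :=
  sSup {x : ℝ | ∃ P : Template n l, SDRFree H P ∧ x = ∑ e, Real.log ((P.pal e).card : ℝ)}

/-- `λ(H, l)`: the infimum over `n ≥ v(H)` of `ex_log(n; H, l) / C(n, 2)`. -/
noncomputable def lam {V : Type} (H : SimpleGraph V) (l : ℕ) : ℝ :=
  sInf {x : ℝ | ∃ n : ℕ, Nat.card V ≤ n ∧ x = exLog n H l / (n.choose 2 : ℝ)}

/-- `χ_j(H)`: the least chromatic number of `H - S` over the sets `S` of `j` edges of `H`. -/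
noncomputable def chiJ {V : Type} (H : SimpleGraph V) (j : ℕ) : ℕ :=
  sInf {k : ℕ | ∃ S : Set (Sym2 V), S ⊆ H.edgeSet ∧ S.ncard = j ∧
    (H.deleteEdges S).chromaticNumber = (k : ℕ∞)}

/-- `π_j(H) = 1 - 1/(χ_j(H) - 1)` if `χ_j(H) ≥ 3`, and `0` otherwise. -/
noncomputable def piJ {V : Type} (H : SimpleGraph V) (j : ℕ) : ℝ :=
  if 3 ≤ chiJ H j then 1 - 1 / ((chiJ H j : ℝ) - 1) else 0

/-- The standing hypotheses on `H` and `l`: no isolated vertex, at least three edges, two adjacent
edges, and `l ≥ e(H)`. -/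
def Admissible {V : Type} (H : SimpleGraph V) (l : ℕ) : Prop :=
  (∀ v, ∃ w, H.Adj v w) ∧ 3 ≤ H.edgeSet.ncard ∧
    (∃ u v w, v ≠ w ∧ H.Adj u v ∧ H.Adj u w) ∧ H.edgeSet.ncard ≤ l

end Pool.Agent.Work.MP_5f020a_co
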