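import Pool.Agent.Work.MP_5f020a_co.Defs

namespace Pool.Agent.Work.MP_5f020a_co

open Finset

/-- The base relation of the example: complete bipartite between `0..8` and `9..17`, plus the
paths `0-1-2` and `9-10-11`. -/
def rel (a b : Fin 18) : Bool :=
  (decide (a.val < 9) && decide (9 ≤ b.val)) || (a.val == 0 && b.val == 1) ||
    (a.val == 1 && b.val == 2) || (a.val == 9 && b.val == 10) || (a.val == 10 && b.val == 11)

/-- The example graph. -/
def HH : SimpleGraph (Fin 18) where
  Adj a b := rel a b = true ∨ rel b a = true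
  symm := ⟨fun _ _ h => h.symm⟩
  loopless := ⟨by decide⟩

instance : DecidableRel HH.Adj := fun a b =>
  inferInstanceAs (Decidable (rel a b = true ∨ rel b a = true))

lemma HH_card : HH.edgeFinset.card = 85 := by decide +kernel

lemma HH_ncard : HH.edgeSet.ncard = 85 := by
  rw [← HH_card, ← SimpleGraph.coe_edgeFinset, Set.ncard_coe_finset]

lemma HH_admissible : Admissible HH 2300 := by
  refine ⟨by decide, by rw [HH_ncard]; norm_num, ⟨1, 0, 2, by decide, by decide, by decide⟩,
    by rw [HH_ncard]; norm_num⟩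

/-- If `T` is a set of at most `j` edges whose deletion leaves a `k`-colourable graph then
`χ_j ≤ k`. -/
lemma chiJ_le (T : Finset (Sym2 (Fin 18))) (hT : T ⊆ HH.edgeFinset) (j k : ℕ) (h1 : T.card ≤ j)
    (h2 : j ≤ 85) (hc : (HH.deleteEdges (T : Set (Sym2 (Fin 18)))).Colorable k) :
    chiJ HH j ≤ k := by
  obtain ⟨S, hTS, hS, hcard⟩ := Finset.exists_subsuperset_card_eq hT h1 (by rw [HH_card]; exact h2)
  have hc' : (HH.deleteEdges (S : Set (Sym2 (Fin 18)))).Colorable k :=
    hc.mono_left (SimpleGraph.deleteEdges_anti (by exact_mod_cast hTS))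
  have hle := hc'.chromaticNumber_le
  obtain ⟨m, hm⟩ : ∃ m : ℕ, (HH.deleteEdges (S : Set (Sym2 (Fin 18)))).chromaticNumber = m :=
    ENat.ne_top_iff_exists.mp (ne_top_of_le_ne_top (ENat.natCast_ne_top k) hle) |>.imp
      fun _ h => h.symm
  have hmk : m ≤ k := by rw [hm] at hle; exact_mod_cast hle
  refine le_trans (Nat.sInf_le ?_) hmk
  refine ⟨S, ?_, ?_, hm⟩
  · rw [← SimpleGraph.coe_edgeFinset]; exact_mod_cast hS
  · rw [Set.ncard_coe_finset, hcard]

lemma chiJ_le_three (j : ℕ) (h1 : 1 ≤ j) (h2 : j ≤ 85) : chiJ HH j ≤ 3 := by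
  refine chiJ_le {s(1, 10)} (by decide) j 3 (by simpa using h1) h2 ?_
  refine ⟨SimpleGraph.Coloring.mk
    (fun a : Fin 18 => if a = 1 ∨ a = 10 then (2 : Fin 3) else if a.val < 9 then 0 else 1) ?_⟩
  intro a b hab
  rw [SimpleGraph.deleteEdges_adj] at hab
  revert a b
  simp only [Finset.coe_singleton, Set.mem_singleton_iff]
  decide

lemma chiJ_le_two (j : ℕ) (h1 : 4 ≤ j) (h2 : j ≤ 85) : chiJ HH j ≤ 2 := by
  refine chiJ_le {s(0, 1), s(1, 2), s(9, 10), s(10, 11)} (by decide) j 2
    (le_trans (by decide) h1) h2 ?_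
  refine ⟨SimpleGraph.Coloring.mk
    (fun a : Fin 18 => if a.val < 9 then (0 : Fin 2) else 1) ?_⟩
  intro a b hab
  rw [SimpleGraph.deleteEdges_adj] at hab
  revert a b
  simp only [Finset.mem_coe]
  decide

lemma piJ_cases (j : ℕ) (h1 : 1 ≤ j) (h2 : j ≤ 85) :
    piJ HH j = 0 ∨ (piJ HH j = 1 / 2 ∧ j ≤ 3) := by
  unfold piJ
  by_cases h : 3 ≤ chiJ HH j
  · right
    have h3 := chiJ_le_three j h1 h2
    have : chiJ HH j = 3 := le_antisymm h3 h
    refine ⟨by rw [if_pos h, this]; norm_num, ?_⟩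
    by_contra hj
    have := chiJ_le_two j (by omega) h2
    omega
  · left; rw [if_neg h]

/-- The combinatorial core. -/
lemma core (A : Fin 18 → Prop) (col : Fin 18 × Fin 18 → ℕ)
    (hinj : Set.InjOn col {p | rel p.1 p.2 = true})
    (hAA : ∀ p : Fin 18 × Fin 18, rel p.1 p.2 = true → A p.1 → A p.2 → col p = 0)
    (hBB : ∀ p : Fin 18 × Fin 18, rel p.1 p.2 = true → ¬ A p.1 → ¬ A p.2 → col p < 10) :
    False := by
  classical
  have key : ∀ T : Finset (Fin 18 × Fin 18), 11 ≤ T.card →
      (∀ p ∈ T, rel p.1 p.2 = true ∧ ¬ A p.1 ∧ ¬ A p.2) → False := by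
    intro T hT h
    have : T.card ≤ (Finset.range 10).card := by
      refine Finset.card_le_card_of_injOn col ?_ ?_
      · intro p hp
        have := h p hp
        simpa using hBB p this.1 this.2.1 this.2.2
      · intro p hp q hq hpq
        exact hinj (h p hp).1 (h q hq).1 hpq
    simp at this
    omega
  have uniq : ∀ p q : Fin 18 × Fin 18, rel p.1 p.2 = true → A p.1 → A p.2 →
      rel q.1 q.2 = true → A q.1 → A q.2 → p = q := by
    intro p q hp h1 h2 hq h3 h4
    exact hinj hp hq (by rw [hAA p hp h1 h2, hAA q hq h3 h4])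
  have hx : ∃ x : Fin 18, x.val < 9 ∧ ¬ A x := by
    by_contra hcon
    push Not at hcon
    have := uniq (0, 1) (1, 2) (by decide) (hcon 0 (by decide)) (hcon 1 (by decide)) (by decide)
      (hcon 1 (by decide)) (hcon 2 (by decide))
    revert this; decide
  have hy : ∃ y : Fin 18, 9 ≤ y.val ∧ ¬ A y := by
    by_contra hcon
    push Not at hcon
    have := uniq (9, 10) (10, 11) (by decide) (hcon 9 (by decide)) (hcon 10 (by decide))
      (by decide) (hcon 10 (by decide)) (hcon 11 (by decide))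
    revert this; decide
  obtain ⟨x, hx9, hxA⟩ := hx
  obtain ⟨y, hy9, hyA⟩ := hy
  have hy1 : ∃ y1 : Fin 18, 9 ≤ y1.val ∧ A y1 := by
    by_contra hcon
    push Not at hcon
    refine key (insert (9, 10) (insert (10, 11)
      (univ.filter fun p : Fin 18 × Fin 18 => p.1 = x ∧ 9 ≤ p.2.val))) ?_ ?_
    · clear hxA; revert x; decide
    · intro p hp
      simp only [mem_insert, mem_filter, mem_univ, true_and] at hp
      rcases hp with rfl | rfl | ⟨h1, h2⟩
      · exact ⟨by decide, hcon 9 (by decide), hcon 10 (by decide)⟩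
      · exact ⟨by decide, hcon 10 (by decide), hcon 11 (by decide)⟩
      · refine ⟨?_, h1 ▸ hxA, hcon _ h2⟩
        simp [rel, h1, hx9, h2]
  have hx1 : ∃ x1 : Fin 18, x1.val < 9 ∧ A x1 := by
    by_contra hcon
    push Not at hcon
    refine key (insert (0, 1) (insert (1, 2)
      (univ.filter fun p : Fin 18 × Fin 18 => p.1.val < 9 ∧ p.2 = y))) ?_ ?_
    · clear hyA hy1; revert y; decide
    · intro p hp
      simp only [mem_insert, mem_filter, mem_univ, true_and] at hp
      rcases hp with rfl | rfl | ⟨h1, h2⟩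
      · exact ⟨by decide, hcon 0 (by decide), hcon 1 (by decide)⟩
      · exact ⟨by decide, hcon 1 (by decide), hcon 2 (by decide)⟩
      · refine ⟨?_, hcon _ h1, h2 ▸ hyA⟩
        simp [rel, h1, hy9, h2]
  obtain ⟨x1, hx19, hx1A⟩ := hx1
  obtain ⟨y1, hy19, hy1A⟩ := hy1
  refine key (univ.filter fun p : Fin 18 × Fin 18 =>
    p.1.val < 9 ∧ p.1 ≠ x1 ∧ 9 ≤ p.2.val ∧ p.2 ≠ y1) ?_ ?_
  · clear hx1A hy1A; revert x1 y1; decide +kernel
  · intro p hp
    simp only [mem_filter, mem_univ, true_and] at hp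
    obtain ⟨h1, h2, h3, h4⟩ := hp
    refine ⟨by simp [rel, h1, h3], fun hA => ?_, fun hA => ?_⟩
    · have := uniq (p.1, y1) (x1, y1) (by simp [rel, h1, hy19]) hA hy1A
        (by simp [rel, hx19, hy19]) hx1A hy1A
      exact h2 (congrArg Prod.fst this)
    · have := uniq (x1, p.2) (x1, y1) (by simp [rel, h3, hx19]) hx1A hA
        (by simp [rel, hx19, hy19]) hx1A hy1A
      exact h4 (congrArg Prod.snd this)

/-- The palettes of the three-level template. -/
noncomputable def palFun (n : ℕ) (e : Sym2 (Fin n)) : Finset (Fin 2300) := by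
  classical
  exact if ∀ v ∈ e, v.val < n / 2 then {0}
    else if ∀ v ∈ e, n / 2 ≤ v.val then Finset.Iio 10 else Finset.univ

lemma palFun_AA {n : ℕ} {u v : Fin n} (hu : u.val < n / 2) (hv : v.val < n / 2) :
    palFun n s(u, v) = {0} := by
  unfold palFun
  rw [if_pos]
  intro w hw
  rcases Sym2.mem_iff.mp hw with rfl | rfl <;> assumption

lemma palFun_BB {n : ℕ} {u v : Fin n} (hu : n / 2 ≤ u.val) (hv : n / 2 ≤ v.val) :
    palFun n s(u, v) = Finset.Iio 10 := by
  unfold palFun
  rw [if_neg, if_pos]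
  · intro w hw
    rcases Sym2.mem_iff.mp hw with rfl | rfl <;> assumption
  · intro h
    have := h u (Sym2.mem_mk_left _ _)
    omega

lemma palFun_AB {n : ℕ} {u v : Fin n} (hu : u.val < n / 2) (hv : n / 2 ≤ v.val) :
    palFun n s(u, v) = Finset.univ := by
  unfold palFun
  rw [if_neg, if_neg]
  · intro h
    have := h u (Sym2.mem_mk_left _ _)
    omega
  · intro h
    have := h v (Sym2.mem_mk_right _ _)
    omega

lemma palFun_nonempty (n : ℕ) (e : Sym2 (Fin n)) : (palFun n e).Nonempty := by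
  unfold palFun
  split_ifs
  · exact Finset.singleton_nonempty _
  · exact ⟨0, by simp⟩
  · exact Finset.univ_nonempty

/-- The three-level template. -/
noncomputable def tmpl (n : ℕ) : Template n 2300 where
  pal e := palFun n e.1
  pal_nonempty e := palFun_nonempty n e.1

lemma rel_lt : ∀ a b : Fin 18, rel a b = true → a < b := by decide

lemma tmpl_free (n : ℕ) : SDRFree HH (tmpl n) := by
  classical
  rintro K ⟨φ⟩ ⟨c, hc, hmem⟩
  let f : Fin 18 → Fin n := fun a => (φ.symm a).1
  have hf : Function.Injective f := fun a b h => φ.symm.injective (Subtype.ext h)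
  have hadj : ∀ a b, rel a b = true → s(f a, f b) ∈ K.edgeSet := by
    intro a b h
    have : HH.Adj a b := Or.inl h
    have h2 := φ.symm.map_rel_iff.mpr this
    exact SimpleGraph.Subgraph.mem_edgeSet.mpr h2
  let col : Fin 18 × Fin 18 → ℕ := fun p =>
    if h : rel p.1 p.2 = true then (c ⟨s(f p.1, f p.2), hadj _ _ h⟩).val else 0
  refine core (fun a => (f a).val < n / 2) col ?_ ?_ ?_
  · intro p hp q hq hpq
    have hp' : rel p.1 p.2 = true := hp
    have hq' : rel q.1 q.2 = true := hq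
    simp only [col, dif_pos hp', dif_pos hq'] at hpq
    have h1 := congrArg Subtype.val (hc (Fin.ext hpq))
    simp only [Sym2.eq_iff] at h1
    have hp2 := rel_lt _ _ hp'
    have hq2 := rel_lt _ _ hq'
    rcases h1 with ⟨h1, h2⟩ | ⟨h1, h2⟩
    · exact Prod.ext (hf h1) (hf h2)
    · have := hf h1
      have := hf h2
      exfalso
      omega
  · intro p hp h1 h2
    have := hmem ⟨s(f p.1, f p.2), hadj _ _ hp⟩
    simp only [tmpl, palFun_AA h1 h2, mem_singleton] at this
    simp only [col, dif_pos hp, this]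
    rfl
  · intro p hp h1 h2
    have := hmem ⟨s(f p.1, f p.2), hadj _ _ hp⟩
    simp only [tmpl, palFun_BB (not_lt.mp h1) (not_lt.mp h2), mem_Iio] at this
    simp only [col, dif_pos hp]
    exact this

lemma tmpl_sum (n : ℕ) :
    ((n / 2 : ℕ) : ℝ) * ((n - n / 2 : ℕ) : ℝ) * Real.log 2300 +
      ((n - n / 2).choose 2 : ℝ) * Real.log 10 ≤
      ∑ e, Real.log (((tmpl n).pal e).card : ℝ) := by
  classical
  let w : Sym2 (Fin n) → ℝ := fun e => Real.log ((palFun n e).card : ℝ)
  have hw : ∀ e, 0 ≤ w e := fun e => Real.log_natCast_nonneg _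
  have hsum : ∑ e, Real.log (((tmpl n).pal e).card : ℝ) =
      ∑ e ∈ (⊤ : SimpleGraph (Fin n)).edgeFinset, w e := by
    refine (Finset.sum_subtype (p := fun e => e ∈ (⊤ : SimpleGraph (Fin n)).edgeSet)
      (⊤ : SimpleGraph (Fin n)).edgeFinset (fun e => SimpleGraph.mem_edgeFinset) w).symm
  rw [hsum]
  let A : Finset (Fin n) := univ.filter fun v => v.val < n / 2
  let B : Finset (Fin n) := univ.filter fun v => n / 2 ≤ v.val
  have hA : A.card = n / 2 := by
    rw [Fin.card_filter_val_lt]; omega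
  have hB : B.card = n - n / 2 := by
    have : A.card + B.card = n := by
      have := Finset.card_filter_add_card_filter_not (s := (univ : Finset (Fin n)))
        (fun v => v.val < n / 2)
      simpa [A, B] using this
    omega
  let T1 : Finset (Sym2 (Fin n)) := (A ×ˢ B).image fun p => s(p.1, p.2)
  let T2 : Finset (Sym2 (Fin n)) := B.offDiag.image fun p => s(p.1, p.2)
  have hT1 : T1.card = (n / 2) * (n - n / 2) := by
    rw [Finset.card_image_of_injOn, Finset.card_product, hA, hB]
    intro p hp q hq h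
    simp only [A, B, coe_product, coe_filter, mem_univ, true_and, Set.mem_prod,
      Set.mem_ofPred_eq] at hp hq
    simp only [Sym2.eq_iff] at h
    rcases h with ⟨h1, h2⟩ | ⟨h1, h2⟩
    · exact Prod.ext h1 h2
    · exfalso
      have := congrArg Fin.val h1
      omega
  have hT2 : T2.card = (n - n / 2).choose 2 := by
    rw [← hB]
    exact Sym2.card_image_offDiag B
  have hdisj : Disjoint T1 T2 := by
    rw [Finset.disjoint_left]
    intro e h1 h2
    simp only [T1, T2, A, B, mem_image, mem_product, mem_offDiag, mem_filter, mem_univ,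
      true_and] at h1 h2
    obtain ⟨p, hp, rfl⟩ := h1
    obtain ⟨q, hq, h⟩ := h2
    simp only [Sym2.eq_iff] at h
    rcases h with ⟨h1, h2⟩ | ⟨h1, h2⟩
    · have := congrArg Fin.val h1
      omega
    · have := congrArg Fin.val h2
      omega
  have hsub : T1 ∪ T2 ⊆ (⊤ : SimpleGraph (Fin n)).edgeFinset := by
    intro e he
    simp only [T1, T2, A, B, mem_union, mem_image, mem_product, mem_offDiag, mem_filter, mem_univ,
      true_and] at he
    rcases he with ⟨p, hp, rfl⟩ | ⟨p, hp, rfl⟩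
    · simp only [SimpleGraph.mem_edgeFinset, SimpleGraph.mem_edgeSet, SimpleGraph.top_adj]
      intro h
      have := congrArg Fin.val h
      omega
    · simp only [SimpleGraph.mem_edgeFinset, SimpleGraph.mem_edgeSet, SimpleGraph.top_adj]
      exact hp.2.2
  refine le_trans ?_ (Finset.sum_le_sum_of_subset_of_nonneg hsub fun e _ _ => hw e)
  rw [Finset.sum_union hdisj]
  have h1 : ∑ e ∈ T1, w e = T1.card * Real.log 2300 := by
    rw [Finset.sum_congr rfl (g := fun _ => Real.log 2300), Finset.sum_const, nsmul_eq_mul]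
    intro e he
    simp only [T1, A, B, mem_image, mem_product, mem_filter, mem_univ, true_and] at he
    obtain ⟨p, hp, rfl⟩ := he
    simp only [w, palFun_AB hp.1 hp.2, Finset.card_univ, Fintype.card_fin]
    norm_num
  have h2 : ∑ e ∈ T2, w e = T2.card * Real.log 10 := by
    rw [Finset.sum_congr rfl (g := fun _ => Real.log 10), Finset.sum_const, nsmul_eq_mul]
    intro e he
    simp only [T2, B, mem_image, mem_offDiag, mem_filter, mem_univ, true_and] at he
    obtain ⟨p, hp, rfl⟩ := he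
    simp only [w, palFun_BB hp.1 hp.2.1, Fin.card_Iio]
    norm_num
  rw [h1, h2, hT1, hT2]
  push_cast
  exact le_rfl

lemma exLog_ge (n : ℕ) :
    ∑ e, Real.log (((tmpl n).pal e).card : ℝ) ≤ exLog n HH 2300 := by
  refine le_csSup ?_ ⟨tmpl n, tmpl_free n, rfl⟩
  refine ⟨∑ _e : (⊤ : SimpleGraph (Fin n)).edgeSet, Real.log 2300, ?_⟩
  rintro x ⟨P, -, rfl⟩
  refine Finset.sum_le_sum fun e _ => ?_
  have h1 : 0 < (P.pal e).card := (P.pal_nonempty e).card_pos
  have h2 : (P.pal e).card ≤ 2300 := by simpa using Finset.card_le_univ (P.pal e)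
  exact Real.log_le_log (by exact_mod_cast h1) (by exact_mod_cast h2)

lemma count_ineq (n : ℕ) :
    (n.choose 2 : ℝ) * (Real.log 2300 / 2 + Real.log 10 / 4) ≤
      ((n / 2 : ℕ) : ℝ) * ((n - n / 2 : ℕ) : ℝ) * Real.log 2300 +
      ((n - n / 2).choose 2 : ℝ) * Real.log 10 := by
  have hL : Real.log 10 ≤ Real.log 2300 := Real.log_le_log (by norm_num) (by norm_num)
  have hM : 0 ≤ Real.log 10 := Real.log_nonneg (by norm_num)
  rw [Nat.cast_choose_two, Nat.cast_choose_two]
  obtain ⟨k, rfl | rfl⟩ := Nat.even_or_odd' n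
  · have h1 : 2 * k / 2 = k := by omega
    have h2 : 2 * k - k = k := by omega
    rw [h1, h2]
    push_cast
    have hk : (0 : ℝ) ≤ k := Nat.cast_nonneg k
    nlinarith [mul_nonneg hk hM, mul_nonneg hk (sub_nonneg.mpr hL)]
  · have h1 : (2 * k + 1) / 2 = k := by omega
    have h2 : 2 * k + 1 - k = k + 1 := by omega
    rw [h1, h2]
    push_cast
    have hk : (0 : ℝ) ≤ k := Nat.cast_nonneg k
    nlinarith [mul_nonneg hk hM, mul_nonneg hk (sub_nonneg.mpr hL)]

lemma lam_ge : Real.log 2300 / 2 + Real.log 10 / 4 ≤ lam HH 2300 := by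
  refine le_csInf ⟨_, Nat.card (Fin 18), le_rfl, rfl⟩ ?_
  rintro x ⟨n, hn, rfl⟩
  have hn' : 18 ≤ n := by simpa using hn
  have hpos : (0 : ℝ) < (n.choose 2 : ℝ) := by
    exact_mod_cast Nat.choose_pos (by omega)
  rw [le_div_iff₀ hpos, mul_comm]
  exact (count_ineq n).trans ((tmpl_sum n).trans (exLog_ge n))

lemma log84_lt : Real.log 84 < Real.log 2300 / 2 + Real.log 10 / 4 := by
  have h1 : Real.log ((84 : ℝ) ^ 4) < Real.log ((2300 : ℝ) ^ 2 * 10) :=
    Real.log_lt_log (by norm_num) (by norm_num)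
  rw [Real.log_mul (by norm_num) (by norm_num), Real.log_pow, Real.log_pow] at h1
  push_cast at h1
  linarith

lemma lam_gt : Real.log 84 < lam HH 2300 := log84_lt.trans_le lam_ge

lemma rpow_le (j : ℕ) (h1 : 1 ≤ j) (h2 : j ≤ 84) :
    (2300 : ℝ) ^ piJ HH j * (j : ℝ) ^ (1 - piJ HH j) ≤ 84 := by
  rcases piJ_cases j h1 (by omega) with h | ⟨h, hj⟩
  · rw [h]
    simp only [Real.rpow_zero, sub_zero, Real.rpow_one, one_mul]
    exact_mod_cast h2
  · rw [h, show (1 : ℝ) - 1 / 2 = 1 / 2 by norm_num,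
      ← Real.mul_rpow (by norm_num) (Nat.cast_nonneg j), ← Real.sqrt_eq_rpow]
    rw [Real.sqrt_le_left (by norm_num)]
    have : (j : ℝ) ≤ 3 := by exact_mod_cast hj
    linarith

lemma formula_le (j : ℕ) (h1 : 1 ≤ j) (h2 : j ≤ 84) :
    piJ HH j * Real.log 2300 + (1 - piJ HH j) * Real.log j ≤ Real.log 84 := by
  have hj : (0 : ℝ) < j := by exact_mod_cast h1
  have h := Real.log_le_log (by positivity) (rpow_le j h1 h2)
  rwa [Real.log_mul (by positivity) (by positivity), Real.log_rpow (by norm_num),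
    Real.log_rpow hj] at h

end Pool.Agent.Work.MP_5f020a_co
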